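import Pool.Agent.Helper97.TI.Defs

set_option autoImplicit false
open MvPolynomial

namespace TI

/-- a form of degree one is the sum of its coefficients times the variables -/
theorem P4d_lin {σ : Type} [Fintype σ] [DecidableEq σ] (p : MvPolynomial σ ℂ)
    (hp : p.IsHomogeneous 1) :
    p = ∑ j, C (coeff (Finsupp.single j 1) p) * X j := by
  ext u
  rw [coeff_sum]
  by_cases hu : u.degree = 1
  · obtain ⟨j, rfl⟩ : ∃ j, u = Finsupp.single j 1 := by
      rw [Finsupp.degree_eq_sum] at hu
      obtain ⟨j, hj⟩ : ∃ j, u j ≠ 0 := by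
        by_contra hcon
        push Not at hcon
        rw [Finset.sum_eq_zero fun j _ => hcon j] at hu
        exact zero_ne_one hu
      refine ⟨j, ?_⟩
      have h1 := Finset.add_sum_erase Finset.univ u (Finset.mem_univ j)
      ext k
      rw [Finsupp.single_apply]
      split_ifs with hk
      · subst hk
        omega
      · have h2 : u k ≤ ∑ x ∈ Finset.univ.erase j, u x :=
          Finset.single_le_sum (f := u) (fun _ _ => Nat.zero_le _)
            (Finset.mem_erase.2 ⟨fun h => hk h.symm, Finset.mem_univ k⟩)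
        omega
    rw [Finset.sum_eq_single j]
    · rw [coeff_C_mul, coeff_X, if_pos rfl, mul_one]
    · intro k _ hk
      rw [coeff_C_mul, coeff_X, if_neg, mul_zero]
      intro h
      exact hk (Finsupp.single_left_injective one_ne_zero h)
    · intro h
      exact absurd (Finset.mem_univ _) h
  · rw [hp.coeff_eq_zero hu]
    symm
    refine Finset.sum_eq_zero fun j _ => ?_
    rw [coeff_C_mul, coeff_X, if_neg, mul_zero]
    rintro rfl
    exact hu (by simp)

variable {κ d n : ℕ} {K : Type} [Field K] [Algebra ℂ K] [Algebra (RR κ) K]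
  [IsScalarTower ℂ (RR κ) K]

theorem P4d_ρ (S : Sys κ d n K) (p : RR κ) (hp : p.IsHomogeneous 1) :
    S.ρ (algebraMap (RR κ) K p) = (2:ℂ) • algebraMap (RR κ) K p := by
  have h1 : algebraMap (RR κ) K p = ∑ j, (coeff (Finsupp.single j 1) p) • xb κ K j := by
    conv_lhs => rw [P4d_lin p hp]
    rw [map_sum]
    refine Finset.sum_congr rfl fun j _ => ?_
    rw [map_mul, Algebra.smul_def, IsScalarTower.algebraMap_apply ℂ (RR κ) K]
    rfl
  rw [h1, map_sum, Finset.smul_sum]
  refine Finset.sum_congr rfl fun j _ => ?_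
  rw [map_smul, S.hρ, smul_comm]

/-- P4d: the birational case -/
theorem lin_of_top (S : Sys κ d n K) (y : Fin n → RR κ) (hy : ∀ j, (y j).IsHomogeneous 1)
    (hind : AlgebraicIndependent ℂ (im K y))
    (hint : ∀ a : RR κ, IsIntegral (Algebra.adjoin ℂ (Set.range (im K y))) (algebraMap (RR κ) K a))
    (htop : ∀ f : K, f ∈ IntermediateField.adjoin ℂ (Set.range (im K y))) (i : Fin κ) :
    ∃ a : Fin n → ℂ, algebraMap (RR κ) K (X i) = ∑ j, a j • im K y j := by
  classical
  have hfr : IsFractionRing (Algebra.adjoin ℂ (Set.range (im K y))) K := by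
    refine IsFractionRing.of_field _ _ fun z => ?_
    obtain ⟨r, hr, s, hs, hrs⟩ := IntermediateField.mem_adjoin_iff_div.1 (htop z)
    exact ⟨⟨r, hr⟩, ⟨s, hs⟩, hrs⟩
  have hic : IsIntegrallyClosed (Algebra.adjoin ℂ (Set.range (im K y))) :=
    IsIntegrallyClosed.of_equiv hind.aevalEquiv.toRingEquiv
  obtain ⟨r, hr⟩ := (IsIntegrallyClosed.isIntegral_iff (K := K)).1 (hint (X i))
  obtain ⟨P, hP⟩ : ∃ P : MvPolynomial (Fin n) ℂ, aeval (im K y) P = algebraMap (RR κ) K (X i) := by
    have h1 : algebraMap (RR κ) K (X i) ∈ Algebra.adjoin ℂ (Set.range (im K y)) := by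
      rw [← hr]
      exact r.2
    rw [Algebra.adjoin_range_eq_range_aeval] at h1
    obtain ⟨P, hP⟩ := h1
    exact ⟨P, hP⟩
  have h2 : aeval (im K y) (aeval (fun j => C 2 * X j : Fin n → MvPolynomial (Fin n) ℂ) P) =
      aeval (im K y) ((2:ℂ) • P) := by
    have h3 : S.ρ (aeval (im K y) P) = (2:ℂ) • aeval (im K y) P := by
      rw [hP]
      exact S.hρ i
    rw [map_smul, ← h3]
    have h4 : (aeval (im K y)).comp (aeval (fun j => C 2 * X j : Fin n → MvPolynomial (Fin n) ℂ)) =
        S.ρ.comp (aeval (im K y)) := by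
      apply MvPolynomial.algHom_ext
      intro j
      simp only [AlgHom.comp_apply, aeval_X, map_mul, algHom_C]
      rw [im, P4d_ρ S _ (hy j), Algebra.smul_def]
    exact DFunLike.congr_fun h4 P
  have h5 := hind h2
  have h6 : P.IsHomogeneous 1 := by
    intro u hu
    have h7 : coeff u (aeval (fun j => C 2 * X j : Fin n → MvPolynomial (Fin n) ℂ) P) =
        2 ^ u.degree * coeff u P := by
      have h8 : ∀ Q : MvPolynomial (Fin n) ℂ,
          coeff u (aeval (fun j => C 2 * X j : Fin n → MvPolynomial (Fin n) ℂ) Q) =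
            2 ^ u.degree * coeff u Q := by
        intro Q
        induction Q using MvPolynomial.induction_on' with
        | monomial v a =>
          rw [aeval_monomial]
          have h9 : (v.prod fun i k => (C 2 * X i : MvPolynomial (Fin n) ℂ) ^ k) =
              C (2 ^ v.degree) * v.prod fun i k => (X i : MvPolynomial (Fin n) ℂ) ^ k := by
            simp only [mul_pow, Finsupp.prod_mul]
            congr 1
            rw [Finsupp.degree_apply, ← Finset.prod_pow_eq_pow_sum, map_prod]
            simp only [map_pow]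
            rfl
          rw [h9, MvPolynomial.algebraMap_eq, ← mul_assoc, ← C_mul, ← monomial_eq, coeff_monomial,
            coeff_monomial]
          split_ifs with h
          · rw [h, mul_comm]
          · rw [mul_zero]
        | add p q hp hq => rw [map_add, coeff_add, hp, hq, coeff_add, mul_add]
      exact h8 P
    rw [h5, coeff_smul, smul_eq_mul] at h7
    have h10 : (2:ℂ) ^ u.degree = 2 := (mul_right_cancel₀ hu h7).symm
    have h11 : ((2:ℕ):ℂ) ^ u.degree = ((2:ℕ):ℂ) ^ 1 := by rw [pow_one]; exact_mod_cast h10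
    have h12 : (2:ℕ) ^ u.degree = 2 ^ 1 := by exact_mod_cast h11
    have h13 := Nat.pow_right_injective le_rfl h12
    rw [Finsupp.degree_eq_weight_one] at h13
    exact h13
  refine ⟨fun j => coeff (Finsupp.single j 1) P, ?_⟩
  rw [← hP]
  conv_lhs => rw [P4d_lin P h6]
  rw [map_sum]
  refine Finset.sum_congr rfl fun j _ => ?_
  rw [map_mul, algHom_C, aeval_X, Algebra.smul_def]

end TI
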